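import Pool.Agent.H31.XCE.Targets

/-!
NET: nets of phases (row NET of the board xce_modules, MP_c59857_nt).
-/

set_option autoImplicit false

namespace Pool.Agent.H89.XCE

open Finset Pool.Agent.H31.XCE

theorem net_e (x : ℝ) : e x = Complex.exp (((2 * Real.pi * x : ℝ) : ℂ) * Complex.I) := by
  unfold e
  push_cast
  rfl

theorem net_norm (x : ℝ) : ‖e x‖ = 1 := by
  rw [net_e, Complex.norm_exp_ofReal_mul_I]

theorem net_add (x y : ℝ) : e (x + y) = e x * e y := by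
  rw [net_e, net_e, net_e, ← Complex.exp_add]
  congr 1
  push_cast
  ring

theorem net_lip (x y : ℝ) : ‖e x - e y‖ ≤ 2 * Real.pi * |x - y| := by
  have h1 : e x - e y = e y * (e (x - y) - 1) := by
    rw [mul_sub, ← net_add, mul_one]
    congr 2
    ring
  rw [h1, norm_mul, net_norm, one_mul, net_e, mul_comm (((2 * Real.pi * (x - y) : ℝ) : ℂ))]
  refine Real.norm_exp_I_mul_ofReal_sub_one_le.trans (le_of_eq ?_)
  rw [Real.norm_eq_abs, abs_mul, abs_mul, abs_of_pos Real.pi_pos, abs_of_pos (two_pos : (0:ℝ) < 2)]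

theorem net_net (α : ℝ) (K : ℕ) (hK : 1 ≤ K) :
    ∃ k < K, ∃ z : ℤ, |α - z - (k : ℝ) / K| ≤ 1 / K := by
  have hKp : (0 : ℝ) < K := by exact_mod_cast hK
  have h0 : 0 ≤ K * Int.fract α := mul_nonneg hKp.le (Int.fract_nonneg α)
  refine ⟨⌊K * Int.fract α⌋₊, ?_, ⌊α⌋, ?_⟩
  · rw [Nat.floor_lt h0]
    have := Int.fract_lt_one α
    nlinarith
  · have h1 := Nat.floor_le h0
    have h2 := Nat.lt_floor_add_one (K * Int.fract α)
    have h3 : α - ⌊α⌋ - (⌊K * Int.fract α⌋₊ : ℝ) / K =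
        (K * Int.fract α - ⌊K * Int.fract α⌋₊) / K := by
      rw [sub_div, mul_div_cancel_left₀ _ hKp.ne', Int.self_sub_floor]
    rw [h3, abs_of_nonneg (div_nonneg (by linarith) hKp.le)]
    exact div_le_div_of_nonneg_right (by linarith) hKp.le

theorem net_int (z : ℤ) : e z = 1 := by
  unfold e
  have : (2 * Real.pi * ((z : ℝ) : ℂ) * Complex.I : ℂ) = z * (2 * Real.pi * Complex.I) := by
    push_cast
    ring
  rw [this, Complex.exp_int_mul_two_pi_mul_I]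

theorem net_count (p n M : ℕ) (hp : 0 < p) :
    ((((Ico n (n + M)).filter (fun x : ℕ => ((p : ℤ) ∣ (x : ℤ)))).card : ℕ) : ℝ) ≤
      (M : ℝ) / p + 1 := by
  have h1 : (Ico n (n + M)).filter (fun x : ℕ => ((p : ℤ) ∣ (x : ℤ))) =
      (Ico n (n + M)).filter (fun x : ℕ => x ≡ 0 [MOD p]) := by
    refine filter_congr fun x _ => ?_
    rw [Nat.modEq_zero_iff_dvd, Int.natCast_dvd_natCast]
  have h2 := Nat.Ico_filter_modEq_card n (n + M) hp 0
  have h3 : ((((Ico n (n + M)).filter (fun x : ℕ => x ≡ 0 [MOD p])).card : ℕ) : ℚ) ≤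
      (M : ℚ) / p + 1 := by
    have h4 : ((((Ico n (n + M)).filter (fun x : ℕ => x ≡ 0 [MOD p])).card : ℤ) : ℚ) =
      ((max (⌈(((n + M : ℕ) : ℚ) - ((0 : ℕ) : ℚ)) / (p : ℚ)⌉ -
        ⌈((n : ℚ) - ((0 : ℕ) : ℚ)) / (p : ℚ)⌉) 0 : ℤ) : ℚ) := by rw [← h2]
    have h5 := Int.ceil_lt_add_one ((((n + M : ℕ) : ℚ) - ((0 : ℕ) : ℚ)) / (p : ℚ))
    have h6 := Int.le_ceil (((n : ℚ) - ((0 : ℕ) : ℚ)) / (p : ℚ))
    have h7 : (0 : ℚ) ≤ (M : ℚ) / p := by positivity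
    have h8 : (((n + M : ℕ) : ℚ) - ((0 : ℕ) : ℚ)) / (p : ℚ) =
        ((n : ℚ) - ((0 : ℕ) : ℚ)) / (p : ℚ) + (M : ℚ) / p := by
      push_cast
      ring
    rw [Int.cast_natCast] at h4
    rw [h4, Int.cast_max, Int.cast_sub, Int.cast_zero]
    apply max_le
    · rw [h8] at h5 ⊢
      linarith
    · linarith
  rw [h1]
  have h9 := (Rat.cast_le (K := ℝ)).2 h3
  push_cast at h9
  exact h9

theorem net_cd (p : ℕ) (x : ℤ) : |cd p x| ≤ (if (p : ℤ) ∣ x then (1 : ℝ) else 0) + 1 / p := by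
  unfold cd
  have h1 : (0 : ℝ) ≤ 1 / p := by positivity
  have h2 : (0 : ℝ) ≤ if (p : ℤ) ∣ x then (1 : ℝ) else 0 := by split_ifs <;> norm_num
  rw [abs_le]
  constructor <;> linarith

theorem net_sum (Q : Finset ℕ) (M n : ℕ) (hQ : ∀ p ∈ Q, p.Prime ∧ p ≤ M) :
    ∑ x ∈ Ico n (n + M), ∑ p ∈ Q, |cd p x| ≤ 3 * M * LL Q := by
  rw [sum_comm]
  unfold LL
  rw [mul_sum]
  refine sum_le_sum fun p hp => ?_
  obtain ⟨h1, h2⟩ := hQ p hp
  have hp0 : (0 : ℝ) < p := by exact_mod_cast h1.pos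
  have hM1 : 1 ≤ (M : ℝ) / p := by
    rw [le_div_iff₀ hp0, one_mul]
    exact_mod_cast h2
  calc ∑ x ∈ Ico n (n + M), |cd p x| ≤
      ∑ x ∈ Ico n (n + M), ((if (p : ℤ) ∣ (x : ℤ) then (1 : ℝ) else 0) + 1 / p) :=
        sum_le_sum fun x _ => net_cd p x
    _ = ((((Ico n (n + M)).filter (fun x : ℕ => ((p : ℤ) ∣ (x : ℤ)))).card : ℕ) : ℝ) +
        M * (1 / p) := by
      rw [sum_add_distrib, sum_const, Nat.card_Ico, nsmul_eq_mul, sum_boole]
      congr 2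
      rw [Nat.add_sub_cancel_left]
    _ ≤ ((M : ℝ) / p + 1) + M * (1 / p) := by
      have := net_count p n M h1.pos
      linarith
    _ ≤ 3 * M * (1 / p) := by
      have : 3 * (M : ℝ) * (1 / p) = (M : ℝ) / p + (M : ℝ) / p + M * (1 / p) := by ring
      rw [this]
      linarith

theorem pf_NET : T_NET :=
  ⟨net_lip, net_norm, net_add, net_net, net_int, net_sum⟩

end Pool.Agent.H89.XCE
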